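import Mathlib

namespace Pool.Agent.Lib.MP_8f9e48_lc

universe u

/-! ### Grammars, interpretations, families: the notions of the problem -/

/-- A context-free grammar without productions `A → λ`, whose letters are taken from `α`: finite
disjoint alphabets of nonterminals and terminals, a finite set of productions, a start letter. -/
structure Grammar (α : Type u) where
  /-- the alphabet of nonterminals -/
  nonterminals : Set α
  /-- the alphabet of terminals -/
  terminals : Set α
  nonterminals_finite : nonterminals.Finite
  terminals_finite : terminals.Finite
  disjoint : Disjoint nonterminals terminals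
  /-- the productions `A → w`, as pairs of `A` and `w` -/
  productions : Set (α × List α)
  productions_finite : productions.Finite
  lhs_mem : ∀ p ∈ productions, p.1 ∈ nonterminals
  rhs_mem : ∀ p ∈ productions, ∀ x ∈ p.2, x ∈ nonterminals ∪ terminals
  rhs_ne_nil : ∀ p ∈ productions, p.2 ≠ []
  /-- the start letter -/
  start : α
  start_mem : start ∈ nonterminals

variable {α : Type u}

/-- One derivation step `x A y ⇒ x w y` for a production `A → w`. -/
def Grammar.Step (G : Grammar α) (s t : List α) : Prop :=
  ∃ x A w y, (A, w) ∈ G.productions ∧ s = x ++ A :: y ∧ t = x ++ w ++ y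

/-- The language generated by a grammar: the words over the terminal alphabet derivable from the
start letter. -/
def Grammar.language (G : Grammar α) : Set (List α) :=
  {w | (∀ x ∈ w, x ∈ G.terminals) ∧ Relation.ReflTransGen G.Step [G.start] w}

/-- `G'` is an interpretation of `G` by the finite letter substitution `σ`: the sets `σ x`, for `x`
a letter of `G`, are finite, nonempty and pairwise disjoint, `σ(Σ_N)` and `σ(Σ_T)` are the alphabets
of `G'`, every production of `G'` arises from a production of `G` by replacing each letter `x` by
some letter of `σ x`, and the start letter of `G'` is in `σ(S)`. -/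
structure IsInterpretation (σ : α → Set α) (G G' : Grammar α) : Prop where
  finite : ∀ x ∈ G.nonterminals ∪ G.terminals, (σ x).Finite
  nonempty : ∀ x ∈ G.nonterminals ∪ G.terminals, (σ x).Nonempty
  disjoint : ∀ x ∈ G.nonterminals ∪ G.terminals, ∀ y ∈ G.nonterminals ∪ G.terminals,
    x ≠ y → Disjoint (σ x) (σ y)
  nonterminals : G'.nonterminals = ⋃ x ∈ G.nonterminals, σ x
  terminals : G'.terminals = ⋃ x ∈ G.terminals, σ x
  productions : ∀ p' ∈ G'.productions, ∃ p ∈ G.productions,
    p'.1 ∈ σ p.1 ∧ List.Forall₂ (fun y x => y ∈ σ x) p'.2 p.2
  start : G'.start ∈ σ G.start

/-- The grammatical family of `G`: the languages generated by the interpretations of `G`. -/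
def Grammar.family (G : Grammar α) : Set (Set (List α)) :=
  {L | ∃ (σ : α → Set α) (G' : Grammar α), IsInterpretation σ G G' ∧ G'.language = L}

/-- A grammar is unary if it has exactly one terminal letter. -/
def Grammar.IsUnary (G : Grammar α) : Prop := ∃ a, G.terminals = {a}

/-- The `a`-restriction of `G`: delete every production in which some terminal `b ≠ a` occurs. -/
def Grammar.restrict (G : Grammar α) (a : α) : Grammar α where
  nonterminals := G.nonterminals
  terminals := G.terminals
  nonterminals_finite := G.nonterminals_finite
  terminals_finite := G.terminals_finite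
  disjoint := G.disjoint
  productions := {p | p ∈ G.productions ∧ ∀ b ∈ p.2, b ∈ G.terminals → b = a}
  productions_finite := G.productions_finite.subset fun _ h => h.1
  lhs_mem := fun p h => G.lhs_mem p h.1
  rhs_mem := fun p h => G.rhs_mem p h.1
  rhs_ne_nil := fun p h => G.rhs_ne_nil p h.1
  start := G.start
  start_mem := G.start_mem

/-- A family `F` of languages is unary-complete if every grammar `H` with at least two
terminal letters and family `F` has an `a`-restriction, `a` a terminal letter of `H`, whose family
is again `F`. -/
def IsUnaryComplete (F : Set (Set (List α))) : Prop :=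
  ∀ H : Grammar α, H.terminals.Nontrivial → H.family = F →
    ∃ a ∈ H.terminals, (H.restrict a).family = F

end Pool.Agent.Lib.MP_8f9e48_lc
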