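import Mathlib
import Pool.Agent.Lib.MP_8f9e48_lc.Defs

/-!
# Unary grammar forms have unary-complete families: the proof (problem MP_8f9e48_lc)

Outline.  The family of a unary grammar is closed under union, and every family is closed under
intersection with regular languages (annotate the nonterminals by transformations of the states of
an automaton) and under renaming of terminals.  Let the grammar `H` have the same family and
suppose that no restriction of `H` to one terminal `x` has the full family; let `L x` be a language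
in the family of `H` but not in that of the `x`-restriction.  Put a copy of every `L x` on every
combinatorial line of a high-dimensional cube over the disjoint union of the alphabets of the
languages `L x`; the union `U` of all copies is in the family of `H`.  An interpretation of `H`
generating `U` colours the letters of the cube by terminals of `H`; by the Hales-Jewett theorem
there is a monochromatic line, of colour `x` say.  As two distinct lines share at most one point
and as unary context-free languages are regular, the copy of `L x` on that line is the intersection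
of `U` with a regular language over letters of colour `x`.  Hence `L x` is in the family of the
`x`-restriction, a contradiction.
-/

namespace Pool.Agent.Lib.MP_8f9e48_lc

universe u v w

variable {α : Type u}

/-! ### Typed grammars and big-step generation -/

section typed

variable {N : Type u} {T : Type v}

/-- Big-step generation: `Gen P s w` says that the terminal word `w` is generated from the
sentential form `s` by the productions in `P`. -/
inductive Gen (P : Set (N × List (N ⊕ T))) : List (N ⊕ T) → List T → Prop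
  | nil : Gen P [] []
  | term (t : T) {s : List (N ⊕ T)} {w : List T} : Gen P s w → Gen P (Sum.inr t :: s) (t :: w)
  | nonterm {A : N} {r s : List (N ⊕ T)} {u w : List T} :
      (A, r) ∈ P → Gen P r u → Gen P s w → Gen P (Sum.inl A :: s) (u ++ w)

theorem Gen.mono {P Q : Set (N × List (N ⊕ T))} (h : P ⊆ Q) {s : List (N ⊕ T)} {w : List T}
    (hg : Gen P s w) : Gen Q s w := by
  induction hg with
  | nil => exact Gen.nil
  | term t _ ih => exact Gen.term t ih
  | nonterm hp _ _ ih1 ih2 => exact Gen.nonterm (h hp) ih1 ih2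

theorem Gen.single {P : Set (N × List (N ⊕ T))} {A : N} {w : List T} :
    Gen P [Sum.inl A] w ↔ ∃ r, (A, r) ∈ P ∧ Gen P r w := by
  constructor
  · intro h
    cases h with
    | nonterm hp h1 h2 =>
      cases h2
      exact ⟨_, hp, by simpa using h1⟩
  · rintro ⟨r, hp, h⟩
    have := Gen.nonterm hp h Gen.nil
    simpa using this

theorem Gen.ne_nil {P : Set (N × List (N ⊕ T))} (hP : ∀ p ∈ P, p.2 ≠ []) {s : List (N ⊕ T)}
    {w : List T} (h : Gen P s w) : s.length ≤ w.length := by
  induction h with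
  | nil => simp
  | term t _ ih => simpa using ih
  | @nonterm A r s u w hp h1 h2 ih1 ih2 =>
    have h3 : r ≠ [] := hP _ hp
    have h4 : 0 < r.length := List.length_pos_iff.mpr h3
    simp only [List.length_cons, List.length_append]
    omega

variable {N₁ N₂ : Type*} {T₁ T₂ : Type*}

theorem gen_map {P₁ : Set (N₁ × List (N₁ ⊕ T₁))} {P₂ : Set (N₂ × List (N₂ ⊕ T₂))}
    (g : N₁ → N₂) (h : T₁ → T₂)
    (hP : ∀ A r, (A, r) ∈ P₁ → (g A, r.map (Sum.map g h)) ∈ P₂)
    {s : List (N₁ ⊕ T₁)} {w : List T₁} (hg : Gen P₁ s w) :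
    Gen P₂ (s.map (Sum.map g h)) (w.map h) := by
  induction hg with
  | nil => exact Gen.nil
  | term t _ ih => exact Gen.term _ ih
  | nonterm hp _ _ ih1 ih2 =>
    rw [List.map_append]
    exact Gen.nonterm (hP _ _ hp) ih1 ih2

theorem gen_map_rev {P₁ : Set (N₁ × List (N₁ ⊕ T₁))} {P₂ : Set (N₂ × List (N₂ ⊕ T₂))}
    (g : N₁ → N₂) (h : T₁ → T₂)
    (hP : ∀ A r₂, (g A, r₂) ∈ P₂ → ∃ r, (A, r) ∈ P₁ ∧ r₂ = r.map (Sum.map g h))
    {s₂ : List (N₂ ⊕ T₂)} {w₂ : List T₂} (hg : Gen P₂ s₂ w₂) :
    ∀ s : List (N₁ ⊕ T₁), s₂ = s.map (Sum.map g h) → ∃ w, w₂ = w.map h ∧ Gen P₁ s w := by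
  induction hg with
  | nil =>
    intro s hs
    have : s = [] := by simpa using hs.symm
    subst this
    exact ⟨[], rfl, Gen.nil⟩
  | @term t s' w' _ ih =>
    intro s hs
    cases s with
    | nil => simp at hs
    | cons x s =>
      simp only [List.map_cons, List.cons.injEq] at hs
      obtain ⟨hx, hs⟩ := hs
      cases x with
      | inl a => simp at hx
      | inr t' =>
        simp only [Sum.map_inr, Sum.inr.injEq] at hx
        subst hx
        obtain ⟨w, hw, hg⟩ := ih s hs
        exact ⟨t' :: w, by simp [hw], Gen.term _ hg⟩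
  | @nonterm A r s' u' w' hp _ _ ih1 ih2 =>
    intro s hs
    cases s with
    | nil => simp at hs
    | cons x s =>
      simp only [List.map_cons, List.cons.injEq] at hs
      obtain ⟨hx, hs⟩ := hs
      cases x with
      | inr a => simp at hx
      | inl A' =>
        simp only [Sum.map_inl, Sum.inl.injEq] at hx
        subst hx
        obtain ⟨r', hr', rfl⟩ := hP _ _ hp
        obtain ⟨u1, hu1, hg1⟩ := ih1 r' rfl
        obtain ⟨w, hw, hg⟩ := ih2 s hs
        exact ⟨u1 ++ w, by simp [hw, hu1], Gen.nonterm hr' hg1 hg⟩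

theorem gen_comap {P₂ : Set (N × List (N ⊕ T₂))} (f : T₁ → T₂)
    {s₂ : List (N ⊕ T₂)} {w₂ : List T₂} (hg : Gen P₂ s₂ w₂) :
    ∀ w : List T₁, w₂ = w.map f → ∃ s : List (N ⊕ T₁), s₂ = s.map (Sum.map id f) ∧
      Gen {p : N × List (N ⊕ T₁) | (p.1, p.2.map (Sum.map id f)) ∈ P₂} s w := by
  induction hg with
  | nil =>
    intro w hw
    have : w = [] := by simpa using hw.symm
    subst this
    exact ⟨[], rfl, Gen.nil⟩
  | @term t s' w' _ ih =>
    intro w hw
    cases w with
    | nil => simp at hw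
    | cons t' w =>
      simp only [List.map_cons, List.cons.injEq] at hw
      obtain ⟨ht, hw⟩ := hw
      subst ht
      obtain ⟨s, hs, hg⟩ := ih w hw
      exact ⟨Sum.inr t' :: s, by simp [hs], Gen.term _ hg⟩
  | @nonterm A r s' u' w' hp _ _ ih1 ih2 =>
    intro w hw
    obtain ⟨u, w'', rfl, hu, hw''⟩ := List.map_eq_append_iff.mp hw.symm
    obtain ⟨r', hr', hg1⟩ := ih1 u hu.symm
    obtain ⟨s, hs, hg⟩ := ih2 w'' hw''.symm
    refine ⟨Sum.inl A :: s, by simp [hs], Gen.nonterm ?_ hg1 hg⟩
    simpa [← hr'] using hp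

end typed

/-- A typed grammar: productions and start symbol. -/
structure TG (N : Type u) (T : Type v) where
  P : Set (N × List (N ⊕ T))
  S : N

variable {N : Type u} {T₀ : Type v}

/-- `RepW G θ L`: the language `L` over `T` is generated by a grammar with finite nonterminal type
which maps homomorphically to `G`, terminals being mapped by `θ`. -/
def RepW (G : TG N T₀) {T : Type w} (θ : T → T₀) (L : Set (List T)) : Prop :=
  ∃ (N' : Type u) (_ : Finite N') (P' : Set (N' × List (N' ⊕ T))) (S' : N') (τ : N' → N),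
    τ S' = G.S ∧ (∀ A r, (A, r) ∈ P' → (τ A, r.map (Sum.map τ θ)) ∈ G.P) ∧
    L = {x | Gen P' [Sum.inl S'] x}

/-- Renaming terminals. -/
theorem RepW.map {G : TG N T₀} {T T' : Type*} {θ : T → T₀} {L : Set (List T)}
    (h : RepW G θ L) (f : T → T') (θ' : T' → T₀) (hθ : ∀ t, θ' (f t) = θ t) :
    RepW G θ' (List.map f '' L) := by
  obtain ⟨N', hN', P', S', τ, hS, hP, rfl⟩ := h
  refine ⟨N', hN', {p | ∃ r, (p.1, r) ∈ P' ∧ p.2 = r.map (Sum.map id f)}, S', τ, hS, ?_, ?_⟩
  · rintro A r₂ ⟨r, hr, hr₂⟩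
    dsimp only at hr hr₂
    subst hr₂
    have := hP _ _ hr
    rw [List.map_map]
    convert this using 2
    apply List.map_congr_left
    rintro (x | t) _
    · rfl
    · simp [hθ]
  · ext x
    simp only [Set.mem_image, Set.mem_ofPred_eq]
    constructor
    · rintro ⟨y, hy, rfl⟩
      have := gen_map (P₁ := P')
        (P₂ := {p | ∃ r, (p.1, r) ∈ P' ∧ p.2 = r.map (Sum.map id f)}) id f
        (fun A r hr => ⟨r, hr, rfl⟩) hy
      simpa using this
    · intro hx
      obtain ⟨w, hw, hg⟩ := gen_map_rev (P₁ := P')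
        (P₂ := {p | ∃ r, (p.1, r) ∈ P' ∧ p.2 = r.map (Sum.map id f)}) id f
        (fun A r₂ hr => hr) hx [Sum.inl S'] (by simp)
      exact ⟨w, hg, hw.symm⟩

/-- Inverse image under an injective renaming of terminals. -/
theorem RepW.comap {G : TG N T₀} {T T' : Type*} {θ : T' → T₀} {L : Set (List T')}
    (h : RepW G θ L) (f : T → T') (hf : Function.Injective f) :
    RepW G (fun t => θ (f t)) {x | x.map f ∈ L} := by
  obtain ⟨N', hN', P', S', τ, hS, hP, rfl⟩ := h
  refine ⟨N', hN', {p | (p.1, p.2.map (Sum.map id f)) ∈ P'}, S', τ, hS, ?_, ?_⟩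
  · intro A r hr
    have := hP _ _ hr
    rw [List.map_map] at this
    convert this using 2
    apply List.map_congr_left
    rintro (x | t) _ <;> rfl
  · ext x
    simp only [Set.mem_ofPred_eq]
    constructor
    · intro hx
      obtain ⟨s, hs, hg⟩ := gen_comap f hx x rfl
      have hinj : Function.Injective (List.map (Sum.map (id : N' → N') f)) :=
        List.map_injective_iff.mpr (Function.injective_id.sumMap hf)
      have : s = [Sum.inl S'] := by
        apply hinj
        rw [← hs]; rfl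
      subst this
      exact hg
    · intro hx
      have := gen_map (P₁ := {p : N' × List (N' ⊕ T) | (p.1, p.2.map (Sum.map id f)) ∈ P'})
        (P₂ := P') id f (fun A r hr => hr) hx
      simpa using this

/-- The union of two represented languages, for the same assignment of terminals. -/
theorem RepW.union {G : TG N T₀} {T : Type*} {θ : T → T₀} {L₁ L₂ : Set (List T)}
    (h₁ : RepW G θ L₁) (h₂ : RepW G θ L₂) : RepW G θ (L₁ ∪ L₂) := by
  obtain ⟨N₁, hN₁, P₁, S₁, τ₁, hS₁, hP₁, rfl⟩ := h₁
  obtain ⟨N₂, hN₂, P₂, S₂, τ₂, hS₂, hP₂, rfl⟩ := h₂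
  let g₁ : N₁ → Option (N₁ ⊕ N₂) := fun A => some (Sum.inl A)
  let g₂ : N₂ → Option (N₁ ⊕ N₂) := fun A => some (Sum.inr A)
  let P : Set (Option (N₁ ⊕ N₂) × List (Option (N₁ ⊕ N₂) ⊕ T)) :=
    {p | (∃ A r, (A, r) ∈ P₁ ∧ p = (g₁ A, r.map (Sum.map g₁ id))) ∨
      (∃ A r, (A, r) ∈ P₂ ∧ p = (g₂ A, r.map (Sum.map g₂ id))) ∨
      (∃ r, (S₁, r) ∈ P₁ ∧ p = (none, r.map (Sum.map g₁ id))) ∨
      (∃ r, (S₂, r) ∈ P₂ ∧ p = (none, r.map (Sum.map g₂ id)))}
  let τ : Option (N₁ ⊕ N₂) → N := fun x => x.elim G.S (Sum.elim τ₁ τ₂)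
  have hτ₁ : ∀ (r : List (N₁ ⊕ T)), (r.map (Sum.map g₁ id)).map (Sum.map τ θ)
      = r.map (Sum.map τ₁ θ) := by
    intro r
    rw [List.map_map]
    apply List.map_congr_left
    rintro (x | t) _ <;> rfl
  have hτ₂ : ∀ (r : List (N₂ ⊕ T)), (r.map (Sum.map g₂ id)).map (Sum.map τ θ)
      = r.map (Sum.map τ₂ θ) := by
    intro r
    rw [List.map_map]
    apply List.map_congr_left
    rintro (x | t) _ <;> rfl
  have e₁ : ∀ (s : List (N₁ ⊕ T)) (x : List T), Gen P (s.map (Sum.map g₁ id)) x ↔ Gen P₁ s x := by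
    intro s x
    constructor
    · intro h
      obtain ⟨w, hw, hg⟩ := gen_map_rev (P₁ := P₁) (P₂ := P) g₁ id (by
        rintro A r₂ (⟨A', r, hr, he⟩ | ⟨A', r, hr, he⟩ | ⟨r, hr, he⟩ | ⟨r, hr, he⟩)
        · simp only [Prod.mk.injEq, g₁, Option.some.injEq, Sum.inl.injEq] at he
          obtain ⟨rfl, he⟩ := he
          exact ⟨r, hr, he⟩
        · simp [g₁, g₂] at he
        · simp [g₁] at he
        · simp [g₁] at he) h s rfl
      simp only [List.map_id] at hw
      rw [hw]; exact hg
    · intro h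
      have := gen_map (P₁ := P₁) (P₂ := P) g₁ id (fun A r hr => Or.inl ⟨A, r, hr, rfl⟩) h
      simpa using this
  have e₂ : ∀ (s : List (N₂ ⊕ T)) (x : List T), Gen P (s.map (Sum.map g₂ id)) x ↔ Gen P₂ s x := by
    intro s x
    constructor
    · intro h
      obtain ⟨w, hw, hg⟩ := gen_map_rev (P₁ := P₂) (P₂ := P) g₂ id (by
        rintro A r₂ (⟨A', r, hr, he⟩ | ⟨A', r, hr, he⟩ | ⟨r, hr, he⟩ | ⟨r, hr, he⟩)
        · simp [g₁, g₂] at he
        · simp only [Prod.mk.injEq, g₂, Option.some.injEq, Sum.inr.injEq] at he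
          obtain ⟨rfl, he⟩ := he
          exact ⟨r, hr, he⟩
        · simp [g₂] at he
        · simp [g₂] at he) h s rfl
      simp only [List.map_id] at hw
      rw [hw]; exact hg
    · intro h
      have := gen_map (P₁ := P₂) (P₂ := P) g₂ id
        (fun A r hr => Or.inr (Or.inl ⟨A, r, hr, rfl⟩)) h
      simpa using this
  refine ⟨Option (N₁ ⊕ N₂), inferInstance, P, none, τ, rfl, ?_, ?_⟩
  · rintro A r₂ (⟨A', r, hr, he⟩ | ⟨A', r, hr, he⟩ | ⟨r, hr, he⟩ | ⟨r, hr, he⟩) <;>
      (simp only [Prod.mk.injEq] at he; obtain ⟨rfl, rfl⟩ := he)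
    · rw [hτ₁]; exact hP₁ _ _ hr
    · rw [hτ₂]; exact hP₂ _ _ hr
    · rw [hτ₁]; have := hP₁ _ _ hr; rw [hS₁] at this; exact this
    · rw [hτ₂]; have := hP₂ _ _ hr; rw [hS₂] at this; exact this
  · ext x
    simp only [Set.mem_union, Set.mem_ofPred_eq]
    rw [Gen.single (P := P), Gen.single (P := P₁), Gen.single (P := P₂)]
    constructor
    · rintro (⟨r, hr, hg⟩ | ⟨r, hr, hg⟩)
      · exact ⟨_, Or.inr (Or.inr (Or.inl ⟨r, hr, rfl⟩)), (e₁ _ _).mpr hg⟩
      · exact ⟨_, Or.inr (Or.inr (Or.inr ⟨r, hr, rfl⟩)), (e₂ _ _).mpr hg⟩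
    · rintro ⟨r₂, (⟨A', r, hr, he⟩ | ⟨A', r, hr, he⟩ | ⟨r, hr, he⟩ | ⟨r, hr, he⟩), hg⟩
      · simp [g₁] at he
      · simp [g₂] at he
      · simp only [Prod.mk.injEq, true_and] at he
        subst he
        exact Or.inl ⟨r, hr, (e₁ _ _).mp hg⟩
      · simp only [Prod.mk.injEq, true_and] at he
        subst he
        exact Or.inr ⟨r, hr, (e₂ _ _).mp hg⟩

theorem RepW.empty (G : TG N T₀) {T : Type*} (θ : T → T₀) : RepW G θ (∅ : Set (List T)) := by
  refine ⟨PUnit, inferInstance, ∅, PUnit.unit, fun _ => G.S, rfl, by simp, ?_⟩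
  ext x
  simp only [Set.mem_empty_iff_false, Set.mem_ofPred_eq, false_iff]
  rw [Gen.single]
  simp

/-! ### Intersection with a regular language -/

/-- one annotated step -/
def annStep {N' : Type*} {T Q : Type*} (D : DFA T Q) (q : Q) : (N' × (Q → Q)) ⊕ T → Q
  | Sum.inl x => x.2 q
  | Sum.inr t => D.step q t

/-- forget the annotation -/
def annForget {N' : Type*} {T Q : Type*} : (N' × (Q → Q)) ⊕ T → N' ⊕ T :=
  Sum.map Prod.fst id

/-- annotated productions -/
def annProd {N' : Type*} {T Q : Type*} (D : DFA T Q) (P' : Set (N' × List (N' ⊕ T))) :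
    Set ((N' × (Q → Q)) × List ((N' × (Q → Q)) ⊕ T)) :=
  {p | (p.1.1, p.2.map annForget) ∈ P' ∧ p.1.2 = fun q => p.2.foldl (annStep D) q}

theorem ann_sound {N' : Type*} {T Q : Type*} (D : DFA T Q) {P' : Set (N' × List (N' ⊕ T))}
    {s : List ((N' × (Q → Q)) ⊕ T)} {x : List T} (h : Gen (annProd D P') s x) :
    Gen P' (s.map annForget) x ∧ ∀ q, s.foldl (annStep D) q = D.evalFrom q x := by
  induction h with
  | nil => exact ⟨Gen.nil, fun q => rfl⟩
  | @term t s x _ ih =>
    refine ⟨Gen.term _ ih.1, fun q => ?_⟩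
    simp only [List.foldl_cons]
    rw [ih.2]
    rfl
  | @nonterm A r s u x hp _ _ ih1 ih2 =>
    refine ⟨Gen.nonterm hp.1 ih1.1 ih2.1, fun q => ?_⟩
    simp only [List.foldl_cons]
    rw [ih2.2, DFA.evalFrom_of_append, ← ih1.2 q]
    have := hp.2
    simp only [annStep]
    rw [this]

theorem ann_complete {N' : Type*} {T Q : Type*} (D : DFA T Q) {P' : Set (N' × List (N' ⊕ T))}
    {s : List (N' ⊕ T)} {x : List T} (h : Gen P' s x) :
    ∃ s' : List ((N' × (Q → Q)) ⊕ T), s'.map annForget = s ∧ Gen (annProd D P') s' x := by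
  induction h with
  | nil => exact ⟨[], rfl, Gen.nil⟩
  | @term t s x _ ih =>
    obtain ⟨s', rfl, hg⟩ := ih
    exact ⟨Sum.inr t :: s', rfl, Gen.term _ hg⟩
  | @nonterm A r s u x hp _ _ ih1 ih2 =>
    obtain ⟨r', rfl, hg1⟩ := ih1
    obtain ⟨s', rfl, hg2⟩ := ih2
    exact ⟨Sum.inl (A, fun q => r'.foldl (annStep D) q) :: s', rfl, Gen.nonterm ⟨hp, rfl⟩ hg1 hg2⟩

theorem RepW.inter_regular {G : TG N T₀} {T : Type*} {θ : T → T₀} {L : Set (List T)}
    (h : RepW G θ L) {R : Language T} (hR : R.IsRegular) : RepW G θ {x | x ∈ L ∧ x ∈ R} := by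
  obtain ⟨N', hN', P', S', τ, hS, hP, rfl⟩ := h
  obtain ⟨Q, hQ, D, rfl⟩ := hR
  let g : N' × (Q → Q) → Option (N' × (Q → Q)) := some
  let P : Set (Option (N' × (Q → Q)) × List (Option (N' × (Q → Q)) ⊕ T)) :=
    {p | (∃ A r, (A, r) ∈ annProd D P' ∧ p = (some A, r.map (Sum.map some id))) ∨
      (∃ m r, ((S', m), r) ∈ annProd D P' ∧ m D.start ∈ D.accept ∧
        p = (none, r.map (Sum.map some id)))}
  let τ' : Option (N' × (Q → Q)) → N := fun x => x.elim G.S (fun y => τ y.1)
  have hτ : ∀ (r : List ((N' × (Q → Q)) ⊕ T)), (r.map (Sum.map some id)).map (Sum.map τ' θ)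
      = (r.map annForget).map (Sum.map τ θ) := by
    intro r
    rw [List.map_map, List.map_map]
    apply List.map_congr_left
    rintro (x | t) _ <;> rfl
  have e₁ : ∀ (s : List ((N' × (Q → Q)) ⊕ T)) (x : List T),
      Gen P (s.map (Sum.map some id)) x ↔ Gen (annProd D P') s x := by
    intro s x
    constructor
    · intro h
      obtain ⟨w, hw, hg⟩ := gen_map_rev (P₁ := annProd D P') (P₂ := P) some id (by
        rintro A r₂ (⟨A', r, hr, he⟩ | ⟨m, r, hr, hm, he⟩)
        · simp only [Prod.mk.injEq, Option.some.injEq] at he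
          obtain ⟨rfl, he⟩ := he
          exact ⟨r, hr, he⟩
        · simp at he) h s rfl
      simp only [List.map_id] at hw
      rw [hw]; exact hg
    · intro h
      have := gen_map (P₁ := annProd D P') (P₂ := P) some id
        (fun A r hr => Or.inl ⟨A, r, hr, rfl⟩) h
      simpa using this
  refine ⟨Option (N' × (Q → Q)), inferInstance, P, none, τ', rfl, ?_, ?_⟩
  · rintro A r₂ (⟨A', r, hr, he⟩ | ⟨m, r, hr, hm, he⟩) <;>
      (simp only [Prod.mk.injEq] at he; obtain ⟨rfl, rfl⟩ := he)
    · rw [hτ]; exact hP _ _ hr.1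
    · rw [hτ]; have := hP _ _ hr.1; rw [hS] at this; exact this
  · ext x
    simp only [Set.mem_ofPred_eq]
    rw [Gen.single (P := P), Gen.single (P := P')]
    constructor
    · rintro ⟨⟨r, hr, hg⟩, hx⟩
      obtain ⟨r', rfl, hg'⟩ := ann_complete D hg
      have h2 := (ann_sound D hg').2 D.start
      refine ⟨r'.map (Sum.map some id), Or.inr ⟨fun q => r'.foldl (annStep D) q, r',
        ⟨hr, rfl⟩, ?_, rfl⟩, (e₁ _ _).mpr hg'⟩
      simp only [h2]
      exact hx
    · rintro ⟨r₂, (⟨A', r, hr, he⟩ | ⟨m, r, hr, hm, he⟩), hg⟩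
      · simp at he
      · simp only [Prod.mk.injEq, true_and] at he
        subst he
        have hg' := (e₁ _ _).mp hg
        have h2 := (ann_sound D hg').2 D.start
        refine ⟨⟨_, hr.1, (ann_sound D hg').1⟩, ?_⟩
        have h3 := hr.2
        simp only at h3
        rw [h3] at hm
        simp only [h2] at hm
        exact hm

/-! ### Unary context-free languages are regular -/

section pump

variable {N' : Type*} {T : Type*}

/-- Length version of `Gen`. -/
inductive GenN (P : Set (N' × List (N' ⊕ T))) : List (N' ⊕ T) → ℕ → Prop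
  | nil : GenN P [] 0
  | term (t : T) {s : List (N' ⊕ T)} {n : ℕ} : GenN P s n → GenN P (Sum.inr t :: s) (n + 1)
  | nonterm {A : N'} {r s : List (N' ⊕ T)} {m n : ℕ} :
      (A, r) ∈ P → GenN P r m → GenN P s n → GenN P (Sum.inl A :: s) (m + n)

/-- `Occ P A s n`: there is a derivation from `s` with yield length `n` in which `A` occurs. -/
inductive Occ (P : Set (N' × List (N' ⊕ T))) (B : N') : List (N' ⊕ T) → ℕ → Prop
  | here {r s : List (N' ⊕ T)} {m n : ℕ} :
      (B, r) ∈ P → GenN P r m → GenN P s n → Occ P B (Sum.inl B :: s) (m + n)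
  | term (t : T) {s : List (N' ⊕ T)} {n : ℕ} : Occ P B s n → Occ P B (Sum.inr t :: s) (n + 1)
  | left {A : N'} {r s : List (N' ⊕ T)} {m n : ℕ} :
      (A, r) ∈ P → Occ P B r m → GenN P s n → Occ P B (Sum.inl A :: s) (m + n)
  | right {A : N'} {r s : List (N' ⊕ T)} {m n : ℕ} :
      (A, r) ∈ P → GenN P r m → Occ P B s n → Occ P B (Sum.inl A :: s) (m + n)

theorem Gen.toGenN {P : Set (N' × List (N' ⊕ T))} {s : List (N' ⊕ T)} {x : List T}
    (h : Gen P s x) : GenN P s x.length := by
  induction h with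
  | nil => exact GenN.nil
  | term t _ ih => exact GenN.term t ih
  | nonterm hp _ _ ih1 ih2 => rw [List.length_append]; exact GenN.nonterm hp ih1 ih2

theorem GenN.toGen {P : Set (N' × List (N' ⊕ T))} {s : List (N' ⊕ T)} {n : ℕ}
    (h : GenN P s n) : ∃ x, x.length = n ∧ Gen P s x := by
  induction h with
  | nil => exact ⟨[], rfl, Gen.nil⟩
  | term t _ ih =>
    obtain ⟨x, rfl, hx⟩ := ih
    exact ⟨t :: x, rfl, Gen.term t hx⟩
  | nonterm hp _ _ ih1 ih2 =>
    obtain ⟨x, rfl, hx⟩ := ih1
    obtain ⟨y, rfl, hy⟩ := ih2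
    exact ⟨x ++ y, by simp, Gen.nonterm hp hx hy⟩

theorem GenN.mono {P Q : Set (N' × List (N' ⊕ T))} (hPQ : P ⊆ Q) {s : List (N' ⊕ T)} {n : ℕ}
    (h : GenN P s n) : GenN Q s n := by
  induction h with
  | nil => exact GenN.nil
  | term t _ ih => exact GenN.term t ih
  | nonterm hp _ _ ih1 ih2 => exact GenN.nonterm (hPQ hp) ih1 ih2

theorem GenN.length_le {P : Set (N' × List (N' ⊕ T))} (hP : ∀ p ∈ P, p.2 ≠ [])
    {s : List (N' ⊕ T)} {n : ℕ} (h : GenN P s n) : s.length ≤ n := by
  obtain ⟨x, rfl, hx⟩ := h.toGen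
  exact hx.ne_nil hP

theorem Occ.toGenN {P : Set (N' × List (N' ⊕ T))} {B : N'} {s : List (N' ⊕ T)} {n : ℕ}
    (h : Occ P B s n) : GenN P s n := by
  induction h with
  | here hp h1 h2 => exact GenN.nonterm hp h1 h2
  | term t _ ih => exact GenN.term t ih
  | left hp _ h2 ih => exact GenN.nonterm hp ih h2
  | right hp h1 _ ih => exact GenN.nonterm hp h1 ih

theorem Occ.split {P : Set (N' × List (N' ⊕ T))} (hP : ∀ p ∈ P, p.2 ≠ []) {B : N'}
    {s : List (N' ⊕ T)} {n : ℕ} (h : Occ P B s n) :
    ∃ m q, n = m + q ∧ (∃ r, (B, r) ∈ P ∧ GenN P r m) ∧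
      (∀ m' r, (B, r) ∈ P → GenN P r m' → Occ P B s (m' + q)) ∧ (2 ≤ s.length → 1 ≤ q) := by
  induction h with
  | @here r s m n hp h1 h2 =>
    refine ⟨m, n, rfl, ⟨r, hp, h1⟩, fun m' r' hp' h' => Occ.here hp' h' h2, fun hs => ?_⟩
    have := h2.length_le hP
    simp only [List.length_cons] at hs
    omega
  | @term t s n _ ih =>
    obtain ⟨m, q, rfl, h1, h2, _⟩ := ih
    refine ⟨m, q + 1, rfl, h1, fun m' r' hp' h' => Occ.term t (h2 m' r' hp' h'), fun _ => by omega⟩
  | @left A r s m n hp _ hs ih =>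
    obtain ⟨m₁, q, rfl, h1, h2, _⟩ := ih
    refine ⟨m₁, q + n, by omega, h1, fun m' r' hp' h' => ?_, fun hl => ?_⟩
    · have := Occ.left hp (h2 m' r' hp' h') hs
      rwa [add_assoc] at this
    · have := hs.length_le hP
      simp only [List.length_cons] at hl
      omega
  | @right A r s m n hp hr _ ih =>
    obtain ⟨m₁, q, rfl, h1, h2, _⟩ := ih
    refine ⟨m₁, m + q, by omega, h1, fun m' r' hp' h' => ?_, fun hl => ?_⟩
    · have := Occ.right hp hr (h2 m' r' hp' h')
      have e : m + (m' + q) = m' + (m + q) := by omega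
      rwa [e] at this
    · have h3 := hr.length_le hP
      have h4 : 0 < r.length := List.length_pos_iff.mpr (hP _ hp)
      omega

/-- `B` occurs strictly inside one of its own non-unit derivations. -/
def Loopy (P : Set (N' × List (N' ⊕ T))) (B : N') : Prop :=
  ∃ r, (B, r) ∈ P ∧ 2 ≤ r.length ∧ ∃ m, Occ P B r m

theorem Loopy.pump {P : Set (N' × List (N' ⊕ T))} (hP : ∀ p ∈ P, p.2 ≠ []) {B : N'}
    (h : Loopy P B) : ∃ q, 1 ≤ q ∧ ∀ s n, Occ P B s n → Occ P B s (n + q) := by
  obtain ⟨r, hr, hl, m, hm⟩ := h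
  obtain ⟨m₁, q, rfl, _, h2, h3⟩ := hm.split hP
  refine ⟨q, h3 hl, fun s n hs => ?_⟩
  obtain ⟨n₁, q', rfl, ⟨r₁, hr₁, hg₁⟩, h5, _⟩ := hs.split hP
  have := h5 (n₁ + q) r hr (h2 n₁ r₁ hr₁ hg₁).toGenN
  have e : n₁ + q + q' = n₁ + q' + q := by omega
  rwa [e] at this

theorem loopy_or {P : Set (N' × List (N' ⊕ T))} {s : List (N' ⊕ T)} {n : ℕ} (h : GenN P s n) :
    GenN {p | p ∈ P ∧ ¬ Loopy P p.1} s n ∨ ∃ B, Loopy P B ∧ Occ P B s n := by
  induction h with
  | nil => exact Or.inl GenN.nil
  | term t _ ih =>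
    rcases ih with ih | ⟨B, hB, ih⟩
    · exact Or.inl (GenN.term t ih)
    · exact Or.inr ⟨B, hB, Occ.term t ih⟩
  | @nonterm A r s m n hp h1 h2 ih1 ih2 =>
    by_cases hA : Loopy P A
    · exact Or.inr ⟨A, hA, Occ.here hp h1 h2⟩
    · rcases ih1 with ih1 | ⟨B, hB, ih1⟩
      · rcases ih2 with ih2 | ⟨B, hB, ih2⟩
        · exact Or.inl (GenN.nonterm ⟨hp, hA⟩ ih1 ih2)
        · exact Or.inr ⟨B, hB, Occ.right hp h1 ih2⟩
      · exact Or.inr ⟨B, hB, Occ.left hp ih1 h2⟩

theorem occ_or {P Q : Set (N' × List (N' ⊕ T))} (hQ : Q ⊆ P) (B : N') {s : List (N' ⊕ T)} {n : ℕ}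
    (h : GenN Q s n) :
    GenN {p | p ∈ Q ∧ p.1 ≠ B} s n ∨ Occ P B s n := by
  have mono : ∀ {s : List (N' ⊕ T)} {n : ℕ}, GenN Q s n → GenN P s n := GenN.mono hQ
  induction h with
  | nil => exact Or.inl GenN.nil
  | term t _ ih =>
    rcases ih with ih | ih
    · exact Or.inl (GenN.term t ih)
    · exact Or.inr (Occ.term t ih)
  | @nonterm A r s m n hp h1 h2 ih1 ih2 =>
    by_cases hA : A = B
    · subst hA
      exact Or.inr (Occ.here (hQ hp) (mono h1) (mono h2))
    · rcases ih1 with ih1 | ih1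
      · rcases ih2 with ih2 | ih2
        · exact Or.inl (GenN.nonterm ⟨hp, hA⟩ ih1 ih2)
        · exact Or.inr (Occ.right (hQ hp) (mono h1) ih2)
      · exact Or.inr (Occ.left (hQ hp) ih1 (mono h2))

theorem bound_aux {P : Set (N' × List (N' ⊕ T))} {b : ℕ} (hb : ∀ p ∈ P, p.2.length ≤ b)
    (hb1 : 1 ≤ b) (k : ℕ) : ∀ (X : Finset N'), X.card = k →
    ∀ (s : List (N' ⊕ T)) (n : ℕ),
      GenN {p | p ∈ P ∧ ¬ Loopy P p.1 ∧ (2 ≤ p.2.length → p.1 ∈ X)} s n →
      n ≤ s.length * b ^ k := by
  classical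
  induction k with
  | zero =>
    intro X hX s n h
    have hX' : X = ∅ := Finset.card_eq_zero.mp hX
    subst hX'
    induction h with
    | nil => simp
    | term t _ ih =>
      simp only [List.length_cons]
      simp only [pow_zero, mul_one] at ih ⊢
      omega
    | @nonterm A r s m n hp _ _ ih1 ih2 =>
      have h3 : ¬ 2 ≤ r.length := fun h4 => by simpa using hp.2.2 h4
      simp only [List.length_cons]
      simp only [pow_zero, mul_one] at ih1 ih2 ⊢
      omega
  | succ k ihk =>
    intro X hX s n h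
    have hpos : 1 ≤ b ^ (k + 1) := Nat.one_le_pow _ _ hb1
    induction h with
    | nil => simp
    | @term t s n _ ih =>
      have e : (Sum.inr t :: s).length * b ^ (k + 1) = s.length * b ^ (k + 1) + b ^ (k + 1) := by
        rw [List.length_cons]; ring
      rw [e]
      omega
    | @nonterm A r s m n hp h1 h2 ih1 ih2 =>
      have e : ((Sum.inl A : N' ⊕ T) :: s).length * b ^ (k + 1)
          = s.length * b ^ (k + 1) + b ^ (k + 1) := by
        rw [List.length_cons]; ring
      rw [e]
      have hm : m ≤ b ^ (k + 1) := by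
        by_cases hr : 2 ≤ r.length
        · have hA : A ∈ X := hp.2.2 hr
          have hno : ¬ Occ P A r m := fun ho => hp.2.1 ⟨r, hp.1, hr, m, ho⟩
          have := (occ_or (P := P) (fun p hp => hp.1) A h1).resolve_right hno
          have hX' : (X.erase A).card = k := by rw [Finset.card_erase_of_mem hA, hX]; rfl
          have h5 := ihk (X.erase A) hX' r m (by
            have hsub : {p | p ∈ {p : N' × List (N' ⊕ T) | p ∈ P ∧ ¬ Loopy P p.1 ∧
                (2 ≤ p.2.length → p.1 ∈ X)} ∧ p.1 ≠ A} ⊆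
                {p : N' × List (N' ⊕ T) | p ∈ P ∧ ¬ Loopy P p.1 ∧
                (2 ≤ p.2.length → p.1 ∈ X.erase A)} := by
              rintro p ⟨⟨h6, h7, h8⟩, h9⟩
              exact ⟨h6, h7, fun h10 => Finset.mem_erase.mpr ⟨h9, h8 h10⟩⟩
            exact this.mono hsub)
          calc m ≤ r.length * b ^ k := h5
            _ ≤ b * b ^ k := Nat.mul_le_mul_right _ (hb _ hp.1)
            _ = b ^ (k + 1) := by ring
        · have h6 : r.length ≤ 1 := by omega
          calc m ≤ r.length * b ^ (k + 1) := ih1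
            _ ≤ 1 * b ^ (k + 1) := Nat.mul_le_mul_right _ h6
            _ = b ^ (k + 1) := by ring
      omega

theorem pumping [Finite N'] {P : Set (N' × List (N' ⊕ T))} (hP : ∀ p ∈ P, p.2 ≠ []) {b : ℕ}
    (hb : ∀ p ∈ P, p.2.length ≤ b) (s : List (N' ⊕ T)) :
    ∃ p, 1 ≤ p ∧ ∃ K, ∀ n, K ≤ n → GenN P s n → GenN P s (n + p) := by
  classical
  have := Fintype.ofFinite N'
  choose! q hq1 hq2 using fun (B : N') (h : Loopy P B) => h.pump hP
  let p := ∏ B : N', (if Loopy P B then q B else 1)
  have hp : 1 ≤ p := by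
    apply Nat.one_le_iff_ne_zero.mpr
    apply Finset.prod_ne_zero_iff.mpr
    intro B _
    split_ifs with h
    · have := hq1 B h; omega
    · omega
  have hdvd : ∀ B, Loopy P B → q B ∣ p := by
    intro B hB
    have := Finset.dvd_prod_of_mem (fun B : N' => if Loopy P B then q B else 1) (Finset.mem_univ B)
    simpa [hB] using this
  refine ⟨p, hp, s.length * (b + 1) ^ (Fintype.card N') + 1, fun n hn hg => ?_⟩
  rcases loopy_or hg with h | ⟨B, hB, h⟩
  · exfalso
    have h1 := bound_aux (P := P) (b := b + 1) (fun p hp => (hb p hp).trans (Nat.le_succ b))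
      (by omega) (Fintype.card N') Finset.univ Finset.card_univ s n (by
        have hsub : {p : N' × List (N' ⊕ T) | p ∈ P ∧ ¬ Loopy P p.1} ⊆
            {p | p ∈ P ∧ ¬ Loopy P p.1 ∧ (2 ≤ p.2.length → p.1 ∈ Finset.univ)} := by
          rintro p ⟨h6, h7⟩
          exact ⟨h6, h7, fun _ => Finset.mem_univ _⟩
        exact h.mono hsub)
    omega
  · obtain ⟨c, hc⟩ := hdvd B hB
    have key : ∀ i, Occ P B s (n + i * q B) := by
      intro i
      induction i with
      | zero => simpa using h
      | succ i ih =>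
        have := hq2 B hB _ _ ih
        have e : n + i * q B + q B = n + (i + 1) * q B := by ring
        rwa [e] at this
    have := (key c).toGenN
    rw [hc, mul_comm (q B) c]
    exact this

end pump

/-- A set of naturals which is eventually closed under adding `p ≥ 1`, as lengths of words, gives
a regular language. -/
theorem regular_lengths {T : Type*} (E : Set ℕ) (p : ℕ) (hp : 1 ≤ p) (K : ℕ)
    (hE : ∀ n, K ≤ n → n ∈ E → n + p ∈ E) :
    Language.IsRegular ({x : List T | x.length ∈ E} : Language T) := by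
  classical
  -- beyond some `K'`, membership is exactly periodic
  have h1 : ∃ K', K ≤ K' ∧ ∀ n, K' ≤ n → (n ∈ E ↔ n + p ∈ E) := by
    -- for each residue class, either never in `E` beyond `K`, or from some point on always in
    have h2 : ∀ r : Fin p, ∃ M, K ≤ M ∧ ∀ n, M ≤ n → n % p = r → (n ∈ E ↔ n + p ∈ E) := by
      intro r
      by_cases hr : ∃ n, K ≤ n ∧ n % p = r ∧ n ∈ E
      · obtain ⟨n₀, hn₀, hr₀, hE₀⟩ := hr
        have h3 : ∀ i, n₀ + i * p ∈ E := by
          intro i
          induction i with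
          | zero => simpa using hE₀
          | succ i ih =>
            have := hE (n₀ + i * p) (by omega) ih
            have e : n₀ + i * p + p = n₀ + (i + 1) * p := by ring
            rwa [e] at this
        refine ⟨n₀, hn₀, fun n hn hnr => ?_⟩
        have h4 : n ∈ E := by
          have h5 : n % p = n₀ % p := by rw [hnr, hr₀]
          obtain ⟨i, hi⟩ := (Nat.modEq_iff_dvd' hn).mp h5.symm
          have h6 : n = n₀ + i * p := by
            have : n - n₀ = i * p := by rw [hi, mul_comm]
            omega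
          rw [h6]; exact h3 i
        exact ⟨fun _ => hE n (by omega) h4, fun _ => h4⟩
      · refine ⟨K, le_rfl, fun n hn hnr => ?_⟩
        constructor
        · intro h; exact absurd ⟨n, hn, hnr, h⟩ hr
        · intro h
          exact absurd ⟨n + p, by omega, by simpa using hnr, h⟩ hr
    choose M hM1 hM2 using h2
    refine ⟨K + ∑ r, M r, by omega, fun n hn => ?_⟩
    have hr : n % p < p := Nat.mod_lt _ (by omega)
    have : M ⟨n % p, hr⟩ ≤ ∑ r, M r := Finset.single_le_sum (fun _ _ => Nat.zero_le _)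
      (Finset.mem_univ _)
    exact hM2 ⟨n % p, hr⟩ n (by omega) rfl
  obtain ⟨K', hK, hper⟩ := h1
  -- the automaton counts up to `K' + p`, then wraps to `K'`
  let step : Fin (K' + p) → Fin (K' + p) := fun i =>
    if h : i.1 + 1 < K' + p then ⟨i.1 + 1, h⟩ else ⟨K', by omega⟩
  refine ⟨Fin (K' + p), inferInstance,
    ⟨fun i _ => step i, ⟨0, by omega⟩, {i | i.1 ∈ E}⟩, ?_⟩
  have key : ∀ (x : List T) (i : Fin (K' + p)) (m : ℕ),
      (∀ j, i.1 + j ∈ E ↔ m + j ∈ E) →
      ((x.foldl (fun i _ => step i) i).1 ∈ E ↔ m + x.length ∈ E) := by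
    intro x
    induction x with
    | nil => intro i m h; simpa using h 0
    | cons t x ih =>
      intro i m h
      simp only [List.foldl_cons, List.length_cons]
      have e : m + (x.length + 1) = (m + 1) + x.length := by omega
      rw [e]
      apply ih
      intro j
      have h5 := h (j + 1)
      have e2 : m + (j + 1) = m + 1 + j := by omega
      rw [e2] at h5
      rw [← h5]
      simp only [step]
      split_ifs with hi
      · have e3 : i.1 + 1 + j = i.1 + (j + 1) := by omega
        rw [← e3]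
      · have e3 : i.1 + (j + 1) = (K' + j) + p := by omega
        rw [e3]
        exact hper (K' + j) (by omega)
  ext x
  change (x.foldl (fun i _ => step i) ⟨0, by omega⟩).1 ∈ E ↔ x.length ∈ E
  have := key x ⟨0, by omega⟩ 0 (fun j => Iff.rfl)
  simpa using this

/-! ### Regularity of some languages -/

theorem regular_empty {T : Type*} : Language.IsRegular ({_x : List T | False} : Language T) := by
  have := regular_lengths (T := T) ∅ 1 le_rfl 0 (by simp)
  simpa using this

theorem regular_biUnion {T I : Type*} (F : I → Set (List T))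
    (hF : ∀ i, Language.IsRegular (F i : Language T)) (s : Finset I) :
    Language.IsRegular ({x : List T | ∃ i ∈ s, x ∈ F i} : Language T) := by
  classical
  induction s using Finset.induction_on with
  | empty => simpa using regular_empty
  | insert i s _ ih =>
    have := Language.IsRegular.add (hF i) ih
    convert this using 1
    ext x
    change (∃ j ∈ insert i s, x ∈ F j) ↔ (x ∈ F i ∨ ∃ j ∈ s, x ∈ F j)
    simp

theorem regular_all {T : Type*} (d : T) :
    Language.IsRegular ({x : List T | ∀ c ∈ x, c = d} : Language T) := by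
  classical
  refine ⟨Bool, inferInstance, ⟨fun q c => q && decide (c = d), true, {q | q = true}⟩, ?_⟩
  ext x
  change (x.foldl (fun q c => q && decide (c = d)) true = true) ↔ ∀ c ∈ x, c = d
  have key : ∀ (x : List T) (q : Bool),
      x.foldl (fun q c => q && decide (c = d)) q = true ↔ (q = true ∧ ∀ c ∈ x, c = d) := by
    intro x
    induction x with
    | nil => simp
    | cons t x ih =>
      intro q
      simp only [List.foldl_cons, ih, Bool.and_eq_true, decide_eq_true_eq, List.mem_cons,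
        forall_eq_or_imp]
      tauto
  simpa using key x true

/-- The regular language used to extract one copy. -/
theorem regular_extract {T : Type*} [Finite T] (E : T → Set ℕ)
    (hE : ∀ d, ∃ p, 1 ≤ p ∧ ∃ K, ∀ n, K ≤ n → n ∈ E d → n + p ∈ E d) :
    Language.IsRegular ({x : List T | (∃ c₁ ∈ x, ∃ c₂ ∈ x, c₁ ≠ c₂) ∨
      ∃ d, (∀ c ∈ x, c = d) ∧ x.length ∈ E d} : Language T) := by
  classical
  have := Fintype.ofFinite T
  have h1 : Language.IsRegular ({x : List T | x = [] ∨ ∃ d, ∀ c ∈ x, c = d} : Language T) := by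
    have h2 := regular_lengths (T := T) {0} 1 le_rfl 1 (by simp; omega)
    have h3 := regular_biUnion (fun d : T => {x : List T | ∀ c ∈ x, c = d}) regular_all Finset.univ
    have := h2.add h3
    convert this using 1
    ext x
    change (x = [] ∨ ∃ d, ∀ c ∈ x, c = d) ↔
      (x.length ∈ ({0} : Set ℕ) ∨ ∃ d ∈ Finset.univ, x ∈ {x : List T | ∀ c ∈ x, c = d})
    simp
  have h4 := h1.compl
  have h5 := regular_biUnion
    (fun d : T => ({x : List T | (∀ c ∈ x, c = d) ∧ x.length ∈ E d} : Set (List T))) (by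
      intro d
      obtain ⟨p, hp, K, hK⟩ := hE d
      exact (regular_all d).inf (regular_lengths (E d) p hp K hK)) Finset.univ
  have := h4.add h5
  convert this using 1
  ext x
  change ((∃ c₁ ∈ x, ∃ c₂ ∈ x, c₁ ≠ c₂) ∨ ∃ d, (∀ c ∈ x, c = d) ∧ x.length ∈ E d) ↔
    (¬ (x = [] ∨ ∃ d, ∀ c ∈ x, c = d) ∨
      ∃ d ∈ Finset.univ, x ∈ ({x : List T | (∀ c ∈ x, c = d) ∧ x.length ∈ E d} : Set (List T)))
  have h6 : (∃ c₁ ∈ x, ∃ c₂ ∈ x, c₁ ≠ c₂) ↔ ¬ (x = [] ∨ ∃ d, ∀ c ∈ x, c = d) := by
    constructor
    · rintro ⟨c₁, h₁, c₂, h₂, hne⟩ (rfl | ⟨d, hd⟩)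
      · simp at h₁
      · exact hne ((hd _ h₁).trans (hd _ h₂).symm)
    · intro h
      by_contra hcon
      push Not at hcon
      apply h
      cases x with
      | nil => exact Or.inl rfl
      | cons t x =>
        exact Or.inr ⟨t, fun c hc => hcon c hc t (by simp)⟩
  rw [h6]
  simp

/-! ### The typed main theorem -/

/-- Representation with some assignment of terminals. -/
def Rep (G : TG N T₀) (T : Type w) (L : Set (List T)) : Prop :=
  ∃ θ : T → T₀, RepW G θ L

/-- Typed `x`-restriction. -/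
def TG.restrict (G : TG N T₀) (x : T₀) : TG N T₀ where
  P := {p | p ∈ G.P ∧ ∀ t, Sum.inr t ∈ p.2 → t = x}
  S := G.S

theorem RepW.restrict {G : TG N T₀} {T : Type*} {x : T₀} {L : Set (List T)}
    (h : RepW G (fun _ : T => x) L) : RepW (G.restrict x) (fun _ : T => x) L := by
  obtain ⟨N', hN', P', S', τ, hS, hP, rfl⟩ := h
  refine ⟨N', hN', P', S', τ, hS, fun A r hr => ⟨hP A r hr, fun t ht => ?_⟩, rfl⟩
  obtain ⟨y, hy, hy'⟩ := List.mem_map.mp ht
  cases y with
  | inl a => simp at hy'
  | inr a => simpa using hy'.symm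

theorem RepW.not_nil {G : TG N T₀} (hl : ∀ p ∈ G.P, p.2 ≠ []) {T : Type*} {θ : T → T₀}
    {L : Set (List T)} (h : RepW G θ L) : [] ∉ L := by
  obtain ⟨N', hN', P', S', τ, hS, hP, rfl⟩ := h
  intro h
  have := Gen.ne_nil (P := P') (by
    rintro ⟨A, r⟩ hr he
    have := hl _ (hP A r hr)
    dsimp only at he
    subst he
    simp at this) h
  simp at this

theorem RepW.lengths {G : TG N T₀} (hl : ∀ p ∈ G.P, p.2 ≠ []) {b : ℕ}
    (hb : ∀ p ∈ G.P, p.2.length ≤ b) {T : Type*} {θ : T → T₀}
    {L : Set (List T)} (h : RepW G θ L) (d : T) :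
    ∃ p, 1 ≤ p ∧ ∃ K, ∀ n, K ≤ n → List.replicate n d ∈ L → List.replicate (n + p) d ∈ L := by
  have h2 := h.comap (fun _ : Unit => d) (fun _ _ _ => rfl)
  obtain ⟨N', hN', P', S', τ, hS, hP, hL⟩ := h2
  have hP1 : ∀ p ∈ P', p.2 ≠ [] := by
    rintro ⟨A, r⟩ hr he
    have := hl _ (hP A r hr)
    dsimp only at he
    subst he
    simp at this
  have hP2 : ∀ p ∈ P', p.2.length ≤ b := by
    rintro ⟨A, r⟩ hr
    have := hb _ (hP A r hr)
    simpa using this
  obtain ⟨p, hp, K, hK⟩ := pumping hP1 hP2 [Sum.inl S']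
  have key : ∀ n, List.replicate n d ∈ L ↔ GenN P' [Sum.inl S'] n := by
    intro n
    have h3 : List.replicate n d ∈ L ↔
        List.replicate n () ∈ {x : List Unit | x.map (fun _ : Unit => d) ∈ L} := by
      simp
    rw [h3, hL]
    constructor
    · intro h4
      have := h4.toGenN
      simpa using this
    · intro h4
      obtain ⟨x, hx, hg⟩ := h4.toGen
      have : x = List.replicate n () := by
        rw [List.eq_replicate_iff]
        exact ⟨hx, fun _ _ => rfl⟩
      rw [this] at hg
      exact hg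
  exact ⟨p, hp, K, fun n hn h5 => (key _).mpr (hK n hn ((key n).mp h5))⟩

/-- A combinatorial line is determined by two of its points. -/
theorem line_eq {κ ι : Type*} (l l' : Combinatorics.Line κ ι) {a b a' b' : κ} (hab : a ≠ b)
    (ha : l a = l' a') (hb : l b = l' b') : a = a' ∧ b = b' ∧ ∀ c, l c = l' c := by
  have hab' : a' ≠ b' := by
    rintro rfl
    have h1 : l a = l b := ha.trans hb.symm
    obtain ⟨i, hi⟩ := l.proper
    have := congrFun h1 i
    simp [hi] at this
    exact hab this
  have hidx : ∀ i, l.idxFun i = none ↔ l'.idxFun i = none := by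
    intro i
    have h1 := congrFun ha i
    have h2 := congrFun hb i
    simp only [Combinatorics.Line.coe_apply] at h1 h2
    constructor
    · intro h
      rw [h] at h1 h2
      by_contra h'
      obtain ⟨c, hc⟩ := Option.ne_none_iff_exists'.mp h'
      rw [hc] at h1 h2
      simp at h1 h2
      exact hab (h1.trans h2.symm)
    · intro h
      rw [h] at h1 h2
      by_contra h'
      obtain ⟨c, hc⟩ := Option.ne_none_iff_exists'.mp h'
      rw [hc] at h1 h2
      simp at h1 h2
      exact hab' (h1.symm.trans h2)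
  obtain ⟨i, hi⟩ := l.proper
  have hi' := (hidx i).mp hi
  have haa : a = a' := by
    have h1 := congrFun ha i
    simpa [hi, hi'] using h1
  have hbb : b = b' := by
    have h1 := congrFun hb i
    simpa [hi, hi'] using h1
  refine ⟨haa, hbb, fun c => ?_⟩
  funext j
  have h1 := congrFun ha j
  simp only [Combinatorics.Line.coe_apply] at h1 ⊢
  cases h : l.idxFun j with
  | none => rw [(hidx j).mp h]
  | some e =>
    have h' : l'.idxFun j ≠ none := fun h2 => by
      rw [(hidx j).mpr h2] at h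
      cases h
    obtain ⟨e', he'⟩ := Option.ne_none_iff_exists'.mp h'
    rw [h, he'] at h1
    rw [he']
    simpa using h1

theorem main_typed {N T₀ : Type u} [Finite T₀] [Nonempty T₀] (H : TG N T₀)
    (hl : ∀ p ∈ H.P, p.2 ≠ []) {b : ℕ} (hb : ∀ p ∈ H.P, p.2.length ≤ b)
    (hunion : ∀ (T : Type u) [Finite T] (L₁ L₂ : Set (List T)),
      Rep H T L₁ → Rep H T L₂ → Rep H T (L₁ ∪ L₂)) :
    ∃ x, ∀ (T : Type u) [Finite T] (L : Set (List T)), Rep H T L → Rep (H.restrict x) T L := by
  classical
  by_contra hcon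
  push Not at hcon
  choose T hT L hL hnL using hcon
  obtain ⟨ι, _, hι⟩ := Combinatorics.Line.exists_mono_in_high_dimension ((x : T₀) × T x) T₀
  set κ := (x : T₀) × T x with hκ
  have hfinLine : Finite (Combinatorics.Line κ ι) :=
    Finite.of_injective (fun l => l.idxFun) (fun l m h => Combinatorics.Line.ext h)
  -- the copy of `T x` on the line `l`
  let copy : Combinatorics.Line κ ι → (x : T₀) → T x → (ι → κ) := fun l x d => l ⟨x, d⟩
  have hcopy : ∀ l x, Function.Injective (copy l x) := by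
    intro l x d d' h
    obtain ⟨i, hi⟩ := l.proper
    have h1 := congrFun h i
    have h2 : (⟨x, d⟩ : κ) = ⟨x, d'⟩ := by
      change (l.idxFun i).getD (⟨x, d⟩ : κ) = (l.idxFun i).getD (⟨x, d'⟩ : κ) at h1
      rw [hi] at h1
      exact h1
    exact sigma_mk_injective h2
  let F : Combinatorics.Line κ ι × T₀ → Set (List (ι → κ)) :=
    fun i => List.map (copy i.1 i.2) '' L i.2
  have hF : ∀ i, Rep H (ι → κ) (F i) := by
    rintro ⟨l, x⟩
    obtain ⟨θ, hθ⟩ := hL x
    refine ⟨Function.extend (copy l x) θ (fun _ => x), hθ.map _ _ fun t => ?_⟩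
    exact (hcopy l x).extend_apply _ _ _
  have hU : Rep H (ι → κ) {w | ∃ i, w ∈ F i} := by
    have := Fintype.ofFinite (Combinatorics.Line κ ι × T₀)
    have key : ∀ s : Finset (Combinatorics.Line κ ι × T₀),
        Rep H (ι → κ) {w | ∃ i ∈ s, w ∈ F i} := by
      intro s
      induction s using Finset.induction_on with
      | empty =>
        refine ⟨fun _ => Classical.arbitrary T₀, ?_⟩
        simpa using RepW.empty H (fun _ : ι → κ => Classical.arbitrary T₀)
      | insert i s _ ih =>
        have := hunion _ _ _ (hF i) ih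
        convert this using 1
        ext w
        simp
    simpa using key Finset.univ
  obtain ⟨θ, hθ⟩ := hU
  obtain ⟨l, x, hx⟩ := hι θ
  have h1 := hθ.comap (copy l x) (hcopy l x)
  have h2 : (fun t => θ (copy l x t)) = (fun _ => x) := by
    funext t
    exact hx _
  rw [h2] at h1
  have h3 := h1.restrict
  apply hnL x
  refine ⟨fun _ => x, ?_⟩
  obtain ⟨θ', hθ'⟩ := hL x
  have hreg := regular_extract (T := T x) (fun d => {n | List.replicate n d ∈ L x}) (fun d => by
    obtain ⟨p, hp, K, hK⟩ := hθ'.lengths hl hb d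
    exact ⟨p, hp, K, hK⟩)
  have h4 := h3.inter_regular hreg
  convert h4 using 1
  ext w
  have hunary : ∀ d, (∀ c ∈ w, c = d) → w = List.replicate w.length d := by
    intro d hd
    exact List.eq_replicate_iff.mpr ⟨rfl, hd⟩
  constructor
  · intro hw
    refine ⟨⟨⟨l, x⟩, w, hw, rfl⟩, ?_⟩
    change (∃ c₁ ∈ w, ∃ c₂ ∈ w, c₁ ≠ c₂) ∨ ∃ d, (∀ c ∈ w, c = d) ∧ List.replicate w.length d ∈ L x
    by_cases h5 : ∃ c₁ ∈ w, ∃ c₂ ∈ w, c₁ ≠ c₂
    · exact Or.inl h5
    · right
      push Not at h5
      cases w with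
      | nil => exact absurd hw (hθ'.not_nil hl)
      | cons t w =>
        refine ⟨t, fun c hc => h5 c hc t (by simp), ?_⟩
        rw [← hunary t (fun c hc => h5 c hc t (by simp))]
        exact hw
  · rintro ⟨⟨⟨l', x'⟩, y, hy, hyw⟩, hw⟩
    change (∃ c₁ ∈ w, ∃ c₂ ∈ w, c₁ ≠ c₂) ∨ ∃ d, (∀ c ∈ w, c = d) ∧ List.replicate w.length d ∈ L x
      at hw
    rcases hw with ⟨c₁, hc₁, c₂, hc₂, hne⟩ | ⟨d, hd, hw⟩
    · dsimp only at hy hyw
      have m1 : copy l x c₁ ∈ y.map (copy l' x') := by
        rw [hyw]; exact List.mem_map_of_mem hc₁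
      have m2 : copy l x c₂ ∈ y.map (copy l' x') := by
        rw [hyw]; exact List.mem_map_of_mem hc₂
      obtain ⟨e₁, _, he₁⟩ := List.mem_map.mp m1
      obtain ⟨e₂, _, he₂⟩ := List.mem_map.mp m2
      have hab : (⟨x, c₁⟩ : κ) ≠ ⟨x, c₂⟩ := by
        intro h
        simp only [Sigma.mk.injEq, heq_eq_eq, true_and] at h
        exact hne h
      obtain ⟨h6, _, h8⟩ := line_eq l l' hab he₁.symm he₂.symm
      have h7 : x = x' := congrArg Sigma.fst h6
      subst h7
      have h9 : copy l' x = copy l x := by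
        funext t
        exact (h8 ⟨x, t⟩).symm
      rw [h9] at hyw
      have h10 : y = w := (List.map_injective_iff.mpr (hcopy l x)) hyw
      rw [← h10]; exact hy
    · rw [hunary d hd]
      exact hw


/-! ### From grammars over `α` to typed grammars and back -/

theorem gen_append {N T : Type*} {P : Set (N × List (N ⊕ T))} {s₁ s₂ : List (N ⊕ T)}
    {x : List T} : Gen P (s₁ ++ s₂) x ↔ ∃ x₁ x₂, x = x₁ ++ x₂ ∧ Gen P s₁ x₁ ∧ Gen P s₂ x₂ := by
  constructor
  · induction s₁ generalizing x with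
    | nil => intro h; exact ⟨[], x, rfl, Gen.nil, h⟩
    | cons c s₁ ih =>
      intro h
      cases h with
      | term t h =>
        obtain ⟨x₁, x₂, rfl, h1, h2⟩ := ih h
        exact ⟨t :: x₁, x₂, rfl, Gen.term t h1, h2⟩
      | nonterm hp hr h =>
        obtain ⟨x₁, x₂, rfl, h1, h2⟩ := ih h
        exact ⟨_ ++ x₁, x₂, by rw [List.append_assoc], Gen.nonterm hp hr h1, h2⟩
  · rintro ⟨x₁, x₂, rfl, h1, h2⟩
    induction h1 with
    | nil => exact h2
    | term t _ ih => exact Gen.term t ih
    | nonterm hp hr _ _ ih =>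
      rw [List.cons_append, List.append_assoc]
      exact Gen.nonterm hp hr ih

theorem gen_terms {N T : Type*} {P : Set (N × List (N ⊕ T))} (x : List T) :
    Gen P (x.map Sum.inr) x := by
  induction x with
  | nil => exact Gen.nil
  | cons t x ih => exact Gen.term t ih

namespace Grammar

/-- the nonterminals as a type -/
abbrev NT (G : Grammar α) : Type u := {x // x ∈ G.nonterminals}

/-- the terminals as a type -/
abbrev TT (G : Grammar α) : Type u := {x // x ∈ G.terminals}

/-- the underlying letter -/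
def letter (G : Grammar α) : G.NT ⊕ G.TT → α := Sum.elim Subtype.val Subtype.val

/-- the typed grammar -/
def typed (G : Grammar α) : TG G.NT G.TT where
  P := {p | (p.1.1, p.2.map G.letter) ∈ G.productions}
  S := ⟨G.start, G.start_mem⟩

instance (G : Grammar α) : Finite G.NT := G.nonterminals_finite
instance (G : Grammar α) : Finite G.TT := G.terminals_finite

theorem letter_injective (G : Grammar α) : Function.Injective G.letter := by
  rintro (⟨x, hx⟩ | ⟨x, hx⟩) (⟨y, hy⟩ | ⟨y, hy⟩) h
  · simp only [letter, Sum.elim_inl] at h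
    subst h; rfl
  · simp only [letter, Sum.elim_inl, Sum.elim_inr] at h
    subst h
    exact absurd hy (Set.disjoint_left.mp G.disjoint hx)
  · simp only [letter, Sum.elim_inl, Sum.elim_inr] at h
    subst h
    exact absurd hx (Set.disjoint_left.mp G.disjoint hy)
  · simp only [letter, Sum.elim_inr] at h
    subst h; rfl

theorem exists_letters (G : Grammar α) (w : List α)
    (hw : ∀ x ∈ w, x ∈ G.nonterminals ∪ G.terminals) :
    ∃ s : List (G.NT ⊕ G.TT), w = s.map G.letter := by
  induction w with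
  | nil => exact ⟨[], rfl⟩
  | cons x w ih =>
    obtain ⟨s, hs⟩ := ih (fun y hy => hw y (List.mem_cons_of_mem _ hy))
    rcases hw x (by simp) with hx | hx
    · exact ⟨Sum.inl ⟨x, hx⟩ :: s, by simp [hs, letter]⟩
    · exact ⟨Sum.inr ⟨x, hx⟩ :: s, by simp [hs, letter]⟩

theorem exists_rhs (G : Grammar α) {A : α} {w : List α} (h : (A, w) ∈ G.productions) :
    ∃ r : List (G.NT ⊕ G.TT), w = r.map G.letter := G.exists_letters w (G.rhs_mem _ h)

theorem step_context (G : Grammar α) {s t : List α} (u v : List α) (h : G.Step s t) :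
    G.Step (u ++ s ++ v) (u ++ t ++ v) := by
  obtain ⟨x, A, w, y, hp, rfl, rfl⟩ := h
  exact ⟨u ++ x, A, w, y ++ v, hp, by simp, by simp⟩

theorem steps_context (G : Grammar α) {s t : List α} (u v : List α)
    (h : Relation.ReflTransGen G.Step s t) :
    Relation.ReflTransGen G.Step (u ++ s ++ v) (u ++ t ++ v) := by
  induction h with
  | refl => exact Relation.ReflTransGen.refl
  | tail _ h ih => exact ih.tail (G.step_context u v h)

theorem gen_steps (G : Grammar α) {s : List (G.NT ⊕ G.TT)} {x : List G.TT}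
    (h : Gen G.typed.P s x) :
    Relation.ReflTransGen G.Step (s.map G.letter) (x.map Subtype.val) := by
  induction h with
  | nil => exact Relation.ReflTransGen.refl
  | @term t s x _ ih =>
    have := G.steps_context [t.1] [] ih
    simpa [letter] using this
  | @nonterm A r s u x hp _ _ ih1 ih2 =>
    have h0 : G.Step (((Sum.inl A :: s : List (G.NT ⊕ G.TT))).map G.letter)
        (r.map G.letter ++ s.map G.letter) :=
      ⟨[], A.1, r.map G.letter, s.map G.letter, hp, rfl, rfl⟩
    have h1 := G.steps_context [] (s.map G.letter) ih1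
    have h2 := G.steps_context (u.map Subtype.val) [] ih2
    simp only [List.nil_append, List.append_nil] at h1 h2
    rw [List.map_append]
    exact (Relation.ReflTransGen.head h0 h1).trans h2

theorem steps_gen (G : Grammar α) {s₂ w₂ : List α} (h : Relation.ReflTransGen G.Step s₂ w₂) :
    ∀ (s : List (G.NT ⊕ G.TT)) (x : List G.TT), s₂ = s.map G.letter → w₂ = x.map Subtype.val →
      Gen G.typed.P s x := by
  induction h using Relation.ReflTransGen.head_induction_on with
  | refl =>
    intro s x hs hx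
    have h1 : s.map G.letter = (x.map Sum.inr).map G.letter := by
      rw [← hs, hx, List.map_map]
      rfl
    have h2 := (List.map_injective_iff.mpr G.letter_injective) h1
    rw [h2]
    exact gen_terms x
  | @head s₂ s₃ hstep _ ih =>
    intro s x hs hx
    obtain ⟨u, A, w, v, hp, rfl, rfl⟩ := hstep
    obtain ⟨s₁, s', rfl, hu, hs'⟩ := List.map_eq_append_iff.mp hs.symm
    obtain ⟨c, v', rfl, hc, hv⟩ := List.map_eq_cons_iff.mp hs'
    obtain ⟨r, rfl⟩ := G.exists_rhs hp
    have hA : A ∈ G.nonterminals := G.lhs_mem _ hp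
    have hc' : c = Sum.inl ⟨A, hA⟩ := by
      apply G.letter_injective
      rw [hc]; rfl
    subst hc'
    have h3 := ih (s₁ ++ r ++ v') x (by simp [hu, hv]) hx
    rw [List.append_assoc, gen_append] at h3
    obtain ⟨x₁, x', rfl, h4, h5⟩ := h3
    obtain ⟨x₂, x₃, rfl, h6, h7⟩ := gen_append.mp h5
    rw [gen_append]
    exact ⟨x₁, x₂ ++ x₃, rfl, h4, Gen.nonterm hp h6 h7⟩

theorem mem_language (G : Grammar α) (w : List α) :
    w ∈ G.language ↔ ∃ x : List G.TT, w = x.map Subtype.val ∧ Gen G.typed.P [Sum.inl G.typed.S] x := by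
  constructor
  · rintro ⟨hw, h⟩
    obtain ⟨x, rfl⟩ : ∃ x : List G.TT, w = x.map Subtype.val := by
      clear h
      induction w with
      | nil => exact ⟨[], rfl⟩
      | cons y w ih =>
        obtain ⟨x, hx⟩ := ih (fun z hz => hw z (List.mem_cons_of_mem _ hz))
        exact ⟨⟨y, hw y (by simp)⟩ :: x, by simp [hx]⟩
    exact ⟨x, rfl, G.steps_gen h _ _ rfl rfl⟩
  · rintro ⟨x, rfl, h⟩
    refine ⟨?_, ?_⟩
    · intro y hy
      obtain ⟨z, _, rfl⟩ := List.mem_map.mp hy
      exact z.2
    · exact G.gen_steps h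

/-- Every language in the family of `G` comes from a typed representation. -/
theorem family_rep (G : Grammar α) {L : Set (List α)} (hL : L ∈ G.family) :
    ∃ (T : Type u) (_ : Finite T) (e : T → α) (L₀ : Set (List T)), Function.Injective e ∧
      Rep G.typed T L₀ ∧ L = List.map e '' L₀ := by
  obtain ⟨σ, G', h, rfl⟩ := hL
  have hN : ∀ A : G'.NT, ∃ B : G.NT, A.1 ∈ σ B.1 := by
    rintro ⟨A, hA⟩
    rw [h.nonterminals] at hA
    simp only [Set.mem_iUnion] at hA
    obtain ⟨B, hB, hAB⟩ := hA
    exact ⟨⟨B, hB⟩, hAB⟩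
  have hT : ∀ a : G'.TT, ∃ b : G.TT, a.1 ∈ σ b.1 := by
    rintro ⟨A, hA⟩
    rw [h.terminals] at hA
    simp only [Set.mem_iUnion] at hA
    obtain ⟨B, hB, hAB⟩ := hA
    exact ⟨⟨B, hB⟩, hAB⟩
  choose τ hτ using hN
  choose θ hθ using hT
  have huniq : ∀ (x : α) (z : G.NT ⊕ G.TT) (y : α), x ∈ G.nonterminals ∪ G.terminals →
      y ∈ σ x → y ∈ σ (G.letter z) → x = G.letter z := by
    intro x z y hx h1 h2
    have hz : G.letter z ∈ G.nonterminals ∪ G.terminals := by
      rcases z with z | z
      · exact Or.inl z.2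
      · exact Or.inr z.2
    by_contra hne
    exact Set.disjoint_left.mp (h.disjoint x hx _ hz hne) h1 h2
  have hletter : ∀ z : G'.NT ⊕ G'.TT, G'.letter z ∈ σ (G.letter (Sum.map τ θ z)) := by
    rintro (z | z)
    · exact hτ z
    · exact hθ z
  refine ⟨G'.TT, inferInstance, Subtype.val, {x | Gen G'.typed.P [Sum.inl G'.typed.S] x},
    Subtype.val_injective, ⟨θ, G'.NT, inferInstance, G'.typed.P, G'.typed.S, τ, ?_, ?_, rfl⟩, ?_⟩
  · apply Subtype.ext
    have := huniq G.start (Sum.inl (τ G'.typed.S)) G'.start (Or.inl G.start_mem) h.start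
      (hτ G'.typed.S)
    exact this.symm
  · rintro A r hr
    obtain ⟨p, hp, hp1, hp2⟩ := h.productions _ hr
    have e1 : p.1 = (τ A).1 :=
      huniq p.1 (Sum.inl (τ A)) A.1 (Or.inl (G.lhs_mem p hp)) hp1 (hτ A)
    have e2 : p.2 = (r.map (Sum.map τ θ)).map G.letter := by
      have hmem := G.rhs_mem p hp
      rw [List.map_map]
      obtain ⟨q, s⟩ := p
      simp only at hp2 hmem ⊢
      clear hp hp1 e1 hr
      rw [List.forall₂_map_left_iff] at hp2
      induction hp2 with
      | nil => rfl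
      | @cons z x l₁ l₂ hzx _ ih =>
        rw [List.map_cons]
        congr 1
        · exact huniq x (Sum.map τ θ z) _ (hmem x (by simp)) hzx (hletter z)
        · exact ih (fun y hy => hmem y (List.mem_cons_of_mem _ hy))
    change ((τ A).1, (r.map (Sum.map τ θ)).map G.letter) ∈ G.productions
    rw [← e1, ← e2]
    exact hp
  · ext w
    rw [mem_language]
    constructor
    · rintro ⟨x, rfl, hx⟩; exact ⟨x, hx, rfl⟩
    · rintro ⟨x, hx, rfl⟩; exact ⟨x, rfl, hx⟩

theorem exists_bound (G : Grammar α) : ∃ b, ∀ p ∈ G.productions, p.2.length ≤ b := by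
  obtain ⟨b, hb⟩ := (G.productions_finite.image (fun p => p.2.length)).bddAbove
  exact ⟨b, fun p hp => hb ⟨p, hp, rfl⟩⟩

/-- Typed representations give members of the family. -/
theorem rep_family [Infinite α] (G : Grammar α) {T : Type u} [Finite T] (e : T → α)
    (he : Function.Injective e) {L₀ : Set (List T)} (h : Rep G.typed T L₀) :
    List.map e '' L₀ ∈ G.family := by
  classical
  obtain ⟨θ, N', hN', P', S', τ, hS, hP, rfl⟩ := h
  -- fresh letters
  have hinf : Infinite {x : α // x ∉ Set.range e} := by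
    have : (Set.range e)ᶜ.Infinite := (Set.finite_range e).infinite_compl
    exact this.to_subtype
  have hj : ∃ j : N' ⊕ (G.NT ⊕ G.TT) → {x : α // x ∉ Set.range e}, Function.Injective j := by
    have := Fintype.ofFinite (N' ⊕ (G.NT ⊕ G.TT))
    exact ⟨fun x => Infinite.natEmbedding _ ((Fintype.equivFin _ x).val), fun x y h => by
      have h1 := (Infinite.natEmbedding _).injective h
      exact (Fintype.equivFin _).injective (Fin.ext h1)⟩
  obtain ⟨j, hj⟩ := hj
  let J : T ⊕ (N' ⊕ (G.NT ⊕ G.TT)) → α := Sum.elim e (fun z => (j z).1)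
  have hJ : Function.Injective J := by
    rintro (x | x) (y | y) hxy
    · simp only [J, Sum.elim_inl] at hxy
      rw [he hxy]
    · simp only [J, Sum.elim_inl, Sum.elim_inr] at hxy
      exact absurd ⟨x, hxy⟩ (j y).2
    · simp only [J, Sum.elim_inl, Sum.elim_inr] at hxy
      exact absurd ⟨y, hxy.symm⟩ (j x).2
    · simp only [J, Sum.elim_inr] at hxy
      rw [hj (Subtype.ext hxy)]
  -- the type of a letter
  let κ : T ⊕ (N' ⊕ (G.NT ⊕ G.TT)) → α :=
    Sum.elim (fun t => (θ t).1) (Sum.elim (fun A => (τ A).1) (Sum.elim Subtype.val Subtype.val))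
  let σ : α → Set α := fun x => J '' {z | κ z = x}
  let emb : N' ⊕ T → α := Sum.elim (fun A => J (Sum.inr (Sum.inl A))) e
  have hemb : Function.Injective emb := by
    rintro (x | x) (y | y) hxy
    · have : J (Sum.inr (Sum.inl x)) = J (Sum.inr (Sum.inl y)) := hxy
      have := hJ this
      simpa using this
    · have : J (Sum.inr (Sum.inl x)) = J (Sum.inl y) := hxy
      have := hJ this
      simp at this
    · have : J (Sum.inl x) = J (Sum.inr (Sum.inl y)) := hxy
      have := hJ this
      simp at this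
    · simp only [emb, Sum.elim_inr] at hxy
      rw [he hxy]
  have hσemb : ∀ z : N' ⊕ T, emb z ∈ σ (G.letter (Sum.map τ θ z)) := by
    rintro (A | t)
    · exact ⟨Sum.inr (Sum.inl A), rfl, rfl⟩
    · exact ⟨Sum.inl t, rfl, rfl⟩
  obtain ⟨b, hb⟩ := G.exists_bound
  have hP'fin : P'.Finite := by
    have h1 : (Set.univ ×ˢ {r : List (N' ⊕ T) | r.length ≤ b} : Set (N' × List (N' ⊕ T))).Finite :=
      Set.finite_univ.prod (List.finite_length_le _ b)
    refine h1.subset ?_
    rintro ⟨A, r⟩ hr
    refine ⟨Set.mem_univ _, ?_⟩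
    have := hb _ (hP A r hr)
    simpa using this
  let G' : Grammar α :=
    { nonterminals := J '' {z | κ z ∈ G.nonterminals}
      terminals := J '' {z | κ z ∈ G.terminals}
      nonterminals_finite := (Set.toFinite _).image _
      terminals_finite := (Set.toFinite _).image _
      disjoint := by
        rw [Set.disjoint_left]
        rintro _ ⟨z, hz, rfl⟩ ⟨z', hz', h⟩
        have := hJ h
        subst this
        exact Set.disjoint_left.mp G.disjoint hz hz'
      productions := (fun p : N' × List (N' ⊕ T) => (J (Sum.inr (Sum.inl p.1)), p.2.map emb)) '' P'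
      productions_finite := hP'fin.image _
      lhs_mem := by
        rintro _ ⟨⟨A, r⟩, _, rfl⟩
        exact ⟨Sum.inr (Sum.inl A), (τ A).2, rfl⟩
      rhs_mem := by
        rintro _ ⟨⟨A, r⟩, _, rfl⟩ x hx
        obtain ⟨z, _, rfl⟩ := List.mem_map.mp hx
        rcases z with B | t
        · exact Or.inl ⟨Sum.inr (Sum.inl B), (τ B).2, rfl⟩
        · exact Or.inr ⟨Sum.inl t, (θ t).2, rfl⟩
      rhs_ne_nil := by
        rintro _ ⟨⟨A, r⟩, hr, rfl⟩ hnil
        have hr' : r = [] := by simpa using hnil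
        subst hr'
        exact G.rhs_ne_nil _ (hP A [] hr) rfl
      start := J (Sum.inr (Sum.inl S'))
      start_mem := ⟨Sum.inr (Sum.inl S'), (τ S').2, rfl⟩ }
  have hint : IsInterpretation σ G G' := by
    refine ⟨?_, ?_, ?_, ?_, ?_, ?_, ?_⟩
    · intro x _
      exact (Set.toFinite _).image _
    · rintro x (hx | hx)
      · exact ⟨_, Sum.inr (Sum.inr (Sum.inl ⟨x, hx⟩)), rfl, rfl⟩
      · exact ⟨_, Sum.inr (Sum.inr (Sum.inr ⟨x, hx⟩)), rfl, rfl⟩
    · intro x _ y _ hxy
      rw [Set.disjoint_left]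
      rintro _ ⟨z, hz, rfl⟩ ⟨z', hz', h⟩
      have := hJ h
      subst this
      exact hxy (Eq.trans (Eq.symm hz) hz')
    · ext y
      simp only [G', σ, Set.mem_iUnion, Set.mem_image, exists_prop]
      constructor
      · rintro ⟨z, hz, rfl⟩; exact ⟨κ z, hz, z, rfl, rfl⟩
      · rintro ⟨x, hx, z, hz, rfl⟩
        have hz' : κ z = x := hz
        exact ⟨z, by rw [← hz'] at hx; exact hx, rfl⟩
    · ext y
      simp only [G', σ, Set.mem_iUnion, Set.mem_image, exists_prop]
      constructor
      · rintro ⟨z, hz, rfl⟩; exact ⟨κ z, hz, z, rfl, rfl⟩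
      · rintro ⟨x, hx, z, hz, rfl⟩
        have hz' : κ z = x := hz
        exact ⟨z, by rw [← hz'] at hx; exact hx, rfl⟩
    · rintro _ ⟨⟨A, r⟩, hr, rfl⟩
      refine ⟨_, hP A r hr, ⟨Sum.inr (Sum.inl A), rfl, rfl⟩, ?_⟩
      simp only [List.map_map]
      rw [List.forall₂_map_left_iff, List.forall₂_map_right_iff, List.forall₂_same]
      intro z _
      exact hσemb z
    · refine ⟨Sum.inr (Sum.inl S'), ?_, rfl⟩
      have := congrArg Subtype.val hS
      exact this
  refine ⟨σ, G', hint, ?_⟩
  ext w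
  rw [mem_language]
  let g : N' → G'.NT := fun A => ⟨J (Sum.inr (Sum.inl A)), ⟨Sum.inr (Sum.inl A), (τ A).2, rfl⟩⟩
  let hh : T → G'.TT := fun t => ⟨e t, ⟨Sum.inl t, (θ t).2, rfl⟩⟩
  have hgl : ∀ r : List (N' ⊕ T), (r.map (Sum.map g hh)).map G'.letter = r.map emb := by
    intro r
    rw [List.map_map]
    apply List.map_congr_left
    rintro (x | t) _ <;> rfl
  constructor
  · rintro ⟨x, rfl, hx⟩
    obtain ⟨y, hy, hg⟩ := gen_map_rev (P₁ := P') (P₂ := G'.typed.P) g hh (by
      rintro A r₂ ⟨⟨A', r⟩, hr, he⟩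
      simp only [Prod.mk.injEq, g] at he
      obtain ⟨he1, he2⟩ := he
      have h1 := hJ he1
      simp only [Sum.inr.injEq, Sum.inl.injEq] at h1
      subst h1
      refine ⟨r, hr, ?_⟩
      apply (List.map_injective_iff.mpr G'.letter_injective)
      rw [hgl, ← he2]) hx [Sum.inl S'] rfl
    refine ⟨y, hg, ?_⟩
    rw [hy, List.map_map]
    rfl
  · rintro ⟨y, hy, rfl⟩
    refine ⟨y.map hh, ?_, ?_⟩
    · rw [List.map_map]; rfl
    · exact gen_map (P₁ := P') (P₂ := G'.typed.P) g hh (by
        intro A r hr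
        refine ⟨(A, r), hr, ?_⟩
        simp only [Prod.mk.injEq]
        exact ⟨rfl, (hgl r).symm⟩) hy

/-- Membership in the family only depends on the typed representation. -/
theorem family_iff [Infinite α] (G : Grammar α) (hne : G.terminals.Nonempty) {T : Type u}
    [Finite T] (e : T → α) (he : Function.Injective e) {L₀ : Set (List T)} :
    List.map e '' L₀ ∈ G.family ↔ Rep G.typed T L₀ := by
  constructor
  · intro h
    obtain ⟨T', hT', e', L₁, he', ⟨θ', hθ'⟩, hL⟩ := G.family_rep h
    let X : Type u := {x : α // x ∈ Set.range e ∪ Set.range e'}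
    let f : T → X := fun t => ⟨e t, Or.inl ⟨t, rfl⟩⟩
    let f' : T' → X := fun t => ⟨e' t, Or.inr ⟨t, rfl⟩⟩
    have hf : Function.Injective f := fun x y h => he (congrArg Subtype.val h)
    have hf' : Function.Injective f' := fun x y h => he' (congrArg Subtype.val h)
    obtain ⟨a₀, ha₀⟩ := hne
    have h1 := hθ'.map f' (Function.extend f' θ' (fun _ => ⟨a₀, ha₀⟩))
      (fun t => hf'.extend_apply _ _ _)
    have h2 : List.map f' '' L₁ = List.map f '' L₀ := by
      have hval : Function.Injective (List.map (Subtype.val : X → α)) :=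
        List.map_injective_iff.mpr Subtype.val_injective
      apply hval.image_injective
      rw [Set.image_image, Set.image_image]
      simp only [List.map_map]
      exact hL.symm
    rw [h2] at h1
    have h3 := h1.comap f hf
    refine ⟨fun t => Function.extend f' θ' (fun _ => ⟨a₀, ha₀⟩) (f t), ?_⟩
    convert h3 using 1
    ext x
    constructor
    · intro hx; exact ⟨x, hx, rfl⟩
    · rintro ⟨y, hy, hxy⟩
      rw [← (List.map_injective_iff.mpr hf) hxy]
      exact hy
  · exact G.rep_family e he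

theorem typed_restrict (G : Grammar α) (x : G.TT) :
    (G.restrict x.1).typed = G.typed.restrict x := by
  have : (G.restrict x.1).typed.P = (G.typed.restrict x).P := by
    ext ⟨A, r⟩
    constructor
    · rintro ⟨h1, h2⟩
      refine ⟨h1, fun t ht => ?_⟩
      apply Subtype.ext
      exact h2 t.1 (List.mem_map.mpr ⟨Sum.inr t, ht, rfl⟩) t.2
    · rintro ⟨h1, h2⟩
      refine ⟨h1, fun b hb hbt => ?_⟩
      obtain ⟨z, hz, rfl⟩ := List.mem_map.mp hb
      rcases z with z | z
      · exact absurd hbt (Set.disjoint_left.mp G.disjoint z.2)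
      · exact congrArg Subtype.val (h2 z hz)
  exact congrArg (fun P => (⟨P, G.typed.S⟩ : TG G.NT G.TT)) this

end Grammar

/-- **Main theorem.** For every unary grammar `G` the family of `G` is unary-complete. -/
theorem main {α : Type u} [Infinite α] (G : Grammar α) (hG : G.IsUnary) :
    IsUnaryComplete G.family := by
  intro H hH hfam
  obtain ⟨a, ha⟩ := hG
  have hGne : G.terminals.Nonempty := ⟨a, by rw [ha]; rfl⟩
  have hHne : H.terminals.Nonempty := hH.nonempty
  have hsub : Subsingleton G.TT := by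
    constructor
    rintro ⟨x, hx⟩ ⟨y, hy⟩
    rw [ha] at hx hy
    apply Subtype.ext
    exact (Set.mem_singleton_iff.mp hx).trans (Set.mem_singleton_iff.mp hy).symm
  have hexists : ∀ (T : Type u) [Finite T], ∃ e : T → α, Function.Injective e := by
    intro T _
    have := Fintype.ofFinite T
    exact ⟨fun x => Infinite.natEmbedding α ((Fintype.equivFin T x).val), fun x y h =>
      (Fintype.equivFin T).injective (Fin.ext ((Infinite.natEmbedding α).injective h))⟩
  have hne : Nonempty H.TT := hHne.to_subtype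
  obtain ⟨b, hb⟩ := H.exists_bound
  obtain ⟨x, hx⟩ := main_typed H.typed
    (fun p hp hnil => H.rhs_ne_nil _ hp (by rw [hnil]; rfl)) (b := b)
    (fun p hp => by simpa using hb _ hp)
    (by
      intro T _ L₁ L₂ h₁ h₂
      obtain ⟨e, he⟩ := hexists T
      rw [← H.family_iff hHne e he, hfam, G.family_iff hGne e he] at h₁ h₂ ⊢
      obtain ⟨θ₁, h₁⟩ := h₁
      obtain ⟨θ₂, h₂⟩ := h₂
      have : θ₁ = θ₂ := by
        funext t
        exact Subsingleton.elim _ _
      subst this
      exact ⟨θ₁, h₁.union h₂⟩)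
  refine ⟨x.1, x.2, ?_⟩
  rw [← hfam]
  apply Set.Subset.antisymm
  · rintro L ⟨σ, G', h, rfl⟩
    refine ⟨σ, G', ⟨h.finite, h.nonempty, h.disjoint, h.nonterminals, h.terminals, ?_, h.start⟩, rfl⟩
    intro p' hp'
    obtain ⟨p, hp, h1, h2⟩ := h.productions p' hp'
    exact ⟨p, hp.1, h1, h2⟩
  · intro L hL
    obtain ⟨T, _, e, L₀, he, hrep, rfl⟩ := H.family_rep hL
    have := hx T L₀ hrep
    rw [← H.typed_restrict] at this
    exact (H.restrict x.1).rep_family e he this

end Pool.Agent.Lib.MP_8f9e48_lc
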